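import Pool.Agent.J4H48.HN.Stm

/-!
Project HN of helper48 (MP_0e6b5f_nt): PAIR and SIZE.
-/

set_option autoImplicit false

open Polynomial

namespace Pool.Agent.J4H57.HN

open Pool.Agent.J4H48.HN

theorem eval_split {G : ℂ[X]} {d : ℕ} (hm : G.Monic) (hd : G.natDegree = d) (w : ℂ) :
    G.eval w = ∑ i ∈ Finset.range d, G.coeff i * w ^ i + w ^ d := by
  rw [Polynomial.eval_eq_sum_range, hd, Finset.sum_range_succ]
  have h1 : G.coeff d = 1 := by
    rw [← hd]
    exact hm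
  rw [h1, one_mul]

theorem t_PAIR : S_PAIR := by
  intro G d hd2 hm hd
  obtain ⟨A, hA⟩ : ∃ A : ℝ, A = ∑ k ∈ Finset.range d, ‖G.coeff k‖ := ⟨_, rfl⟩
  have hA0 : 0 ≤ A := by
    rw [hA]
    exact Finset.sum_nonneg fun _ _ => norm_nonneg _
  have hdpos : (0 : ℝ) < d := by
    have : 0 < d := by omega
    exact_mod_cast this
  obtain ⟨ε, hε⟩ : ∃ ε : ℝ, ε = 1 / (d * 4 ^ d) := ⟨_, rfl⟩
  have hε0 : 0 < ε := by rw [hε]; positivity
  refine ⟨ε, 1 + A * d * 2 ^ (2 * d), 2 ^ (d + 1), hε0, ?_, one_le_pow₀ (by norm_num), ?_⟩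
  · have : 0 ≤ A * d * 2 ^ (2 * d) := by positivity
    linarith
  intro g g' u u' hg hg' hu1 hu2 hu'1 hu'2 huu
  have hR0 : 0 ≤ A * d * 2 ^ (2 * d) := by positivity
  have hg1 : 1 ≤ g := by linarith
  have hg'1 : 1 ≤ g' := by linarith
  obtain ⟨M, hM⟩ : ∃ M : ℝ, M = max g g' := ⟨_, rfl⟩
  have hgM : g ≤ M := by rw [hM]; exact le_max_left _ _
  have hg'M : g' ≤ M := by rw [hM]; exact le_max_right _ _
  have hM1 : 1 ≤ M := hg1.trans hgM
  rw [← hM]
  obtain ⟨w, hw⟩ : ∃ w : ℂ, w = (g : ℂ) * u := ⟨_, rfl⟩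
  obtain ⟨w', hw'⟩ : ∃ w' : ℂ, w' = (g' : ℂ) * u' := ⟨_, rfl⟩
  rw [← hw, ← hw']
  have hnw : ‖w‖ ≤ 2 * M := by
    rw [hw, norm_mul, Complex.norm_real, Real.norm_of_nonneg (by linarith)]
    nlinarith [norm_nonneg u]
  have hnw' : ‖w'‖ ≤ 2 * M := by
    rw [hw', norm_mul, Complex.norm_real, Real.norm_of_nonneg (by linarith)]
    nlinarith [norm_nonneg u']
  let s : ℕ → ℂ := fun k => ∑ i ∈ Finset.range k, w ^ i * w' ^ (k - 1 - i)
  have hs : ∀ k, s k * (w - w') = w ^ k - w' ^ k := fun k => geom_sum₂_mul w w' k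
  have hdiff : G.eval w - G.eval w' = (∑ k ∈ Finset.range d, G.coeff k * s k + s d) * (w - w') := by
    rw [eval_split hm hd, eval_split hm hd, add_mul, Finset.sum_mul, hs d]
    have : ∀ k ∈ Finset.range d, G.coeff k * s k * (w - w') = G.coeff k * w ^ k - G.coeff k * w' ^ k := by
      intro k _
      rw [mul_assoc, hs k]
      ring
    rw [Finset.sum_congr rfl this, Finset.sum_sub_distrib]
    ring
  -- lower order terms
  have hsk : ∀ k ∈ Finset.range d, ‖s k‖ ≤ d * (2 * M) ^ (d - 2) := by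
    intro k hk
    rw [Finset.mem_range] at hk
    calc ‖s k‖ ≤ ∑ i ∈ Finset.range k, ‖w ^ i * w' ^ (k - 1 - i)‖ := norm_sum_le _ _
      _ ≤ ∑ i ∈ Finset.range k, (2 * M) ^ (d - 2) := by
          refine Finset.sum_le_sum fun i hi => ?_
          rw [Finset.mem_range] at hi
          rw [norm_mul, norm_pow, norm_pow]
          calc ‖w‖ ^ i * ‖w'‖ ^ (k - 1 - i) ≤ (2 * M) ^ i * (2 * M) ^ (k - 1 - i) :=
                mul_le_mul (pow_le_pow_left₀ (norm_nonneg _) hnw _)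
                  (pow_le_pow_left₀ (norm_nonneg _) hnw' _) (by positivity) (by positivity)
            _ = (2 * M) ^ (k - 1) := by
                rw [← pow_add]
                congr 1
                omega
            _ ≤ (2 * M) ^ (d - 2) := pow_le_pow_right₀ (by linarith) (by omega)
      _ = k * (2 * M) ^ (d - 2) := by rw [Finset.sum_const, Finset.card_range, nsmul_eq_mul]
      _ ≤ d * (2 * M) ^ (d - 2) := by
          refine mul_le_mul_of_nonneg_right ?_ (by positivity)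
          exact_mod_cast hk.le
  have hlow : ‖∑ k ∈ Finset.range d, G.coeff k * s k‖ ≤ A * (d * (2 * M) ^ (d - 2)) := by
    calc ‖∑ k ∈ Finset.range d, G.coeff k * s k‖ ≤ ∑ k ∈ Finset.range d, ‖G.coeff k * s k‖ := norm_sum_le _ _
      _ ≤ ∑ k ∈ Finset.range d, ‖G.coeff k‖ * (d * (2 * M) ^ (d - 2)) := by
          refine Finset.sum_le_sum fun k hk => ?_
          rw [norm_mul]
          exact mul_le_mul_of_nonneg_left (hsk k hk) (norm_nonneg _)
      _ = _ := by rw [← Finset.sum_mul, ← hA]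
  -- main term
  obtain ⟨P, hP⟩ : ∃ P : ℝ, P = ∑ i ∈ Finset.range d, g ^ i * g' ^ (d - 1 - i) := ⟨_, rfl⟩
  have hPM : M ^ (d - 1) ≤ P := by
    rw [hP]
    rcases le_total g g' with h | h
    · have hMg : M = g' := by rw [hM]; exact max_eq_right h
      have h1 := Finset.single_le_sum (f := fun i => g ^ i * g' ^ (d - 1 - i)) (s := Finset.range d)
        (fun i _ => by positivity) (Finset.mem_range.mpr (by omega : 0 < d))
      simp only [pow_zero, one_mul, Nat.sub_zero] at h1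
      rw [hMg]
      exact h1
    · have hMg : M = g := by rw [hM]; exact max_eq_left h
      have h1 := Finset.single_le_sum (f := fun i => g ^ i * g' ^ (d - 1 - i)) (s := Finset.range d)
        (fun i _ => by positivity) (Finset.mem_range.mpr (by omega : d - 1 < d))
      simp only [Nat.sub_self, pow_zero, mul_one] at h1
      rw [hMg]
      exact h1
  have hP0 : 0 < P := lt_of_lt_of_le (by positivity) hPM
  have hpow : ∀ n : ℕ, n ≤ d → ‖u' ^ n - u ^ n‖ ≤ d * 2 ^ (n - 1) * ε := by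
    intro n hn
    rw [← geom_sum₂_mul u' u n, norm_mul]
    have h1 : ‖∑ i ∈ Finset.range n, u' ^ i * u ^ (n - 1 - i)‖ ≤ d * 2 ^ (n - 1) := by
      calc ‖∑ i ∈ Finset.range n, u' ^ i * u ^ (n - 1 - i)‖
          ≤ ∑ i ∈ Finset.range n, ‖u' ^ i * u ^ (n - 1 - i)‖ := norm_sum_le _ _
        _ ≤ ∑ i ∈ Finset.range n, (2 : ℝ) ^ (n - 1) := by
            refine Finset.sum_le_sum fun i hi => ?_
            rw [Finset.mem_range] at hi
            rw [norm_mul, norm_pow, norm_pow]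
            calc ‖u'‖ ^ i * ‖u‖ ^ (n - 1 - i) ≤ 2 ^ i * 2 ^ (n - 1 - i) :=
                  mul_le_mul (pow_le_pow_left₀ (norm_nonneg _) hu'2 _)
                    (pow_le_pow_left₀ (norm_nonneg _) hu2 _) (by positivity) (by positivity)
              _ = 2 ^ (n - 1) := by
                  rw [← pow_add]
                  congr 1
                  omega
        _ = n * 2 ^ (n - 1) := by rw [Finset.sum_const, Finset.card_range, nsmul_eq_mul]
        _ ≤ d * 2 ^ (n - 1) := by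
            refine mul_le_mul_of_nonneg_right ?_ (by positivity)
            exact_mod_cast hn
    have h2 : ‖u' - u‖ ≤ ε := by rwa [norm_sub_rev]
    exact mul_le_mul h1 h2 (norm_nonneg _) (by positivity)
  have hmain : ‖s d - u ^ (d - 1) * (P : ℂ)‖ ≤ (d * 2 ^ d * ε) * P := by
    have h1 : s d - u ^ (d - 1) * (P : ℂ) =
        ∑ i ∈ Finset.range d, ((g ^ i * g' ^ (d - 1 - i) : ℝ) : ℂ) * (u ^ i * (u' ^ (d - 1 - i) - u ^ (d - 1 - i))) := by
      rw [hP, Complex.ofReal_sum, Finset.mul_sum, ← Finset.sum_sub_distrib]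
      refine Finset.sum_congr rfl fun i hi => ?_
      rw [Finset.mem_range] at hi
      have h2 : u ^ (d - 1) = u ^ i * u ^ (d - 1 - i) := by
        rw [← pow_add]
        congr 1
        omega
      rw [h2, hw, hw']
      push_cast
      ring
    rw [h1, hP, Finset.mul_sum]
    refine (norm_sum_le _ _).trans (Finset.sum_le_sum fun i hi => ?_)
    rw [Finset.mem_range] at hi
    rw [norm_mul, Complex.norm_real, Real.norm_of_nonneg (by positivity), mul_comm]
    refine mul_le_mul_of_nonneg_right ?_ (by positivity)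
    rw [norm_mul, norm_pow]
    calc ‖u‖ ^ i * ‖u' ^ (d - 1 - i) - u ^ (d - 1 - i)‖
        ≤ 2 ^ i * (d * 2 ^ (d - 1 - i - 1) * ε) :=
          mul_le_mul (pow_le_pow_left₀ (norm_nonneg _) hu2 _) (hpow _ (by omega)) (norm_nonneg _) (by positivity)
      _ = d * 2 ^ (i + (d - 1 - i - 1)) * ε := by rw [pow_add]; ring
      _ ≤ d * 2 ^ d * ε := by
          refine mul_le_mul_of_nonneg_right (mul_le_mul_of_nonneg_left ?_ hdpos.le) hε0.le
          exact pow_le_pow_right₀ (by norm_num) (by omega)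
  have hu3 : (1 / 2 : ℝ) ^ (d - 1) * P ≤ ‖u ^ (d - 1) * (P : ℂ)‖ := by
    rw [norm_mul, norm_pow, Complex.norm_real, Real.norm_of_nonneg hP0.le]
    exact mul_le_mul_of_nonneg_right (pow_le_pow_left₀ (by norm_num) hu1 _) hP0.le
  have e1 : (d : ℝ) * 2 ^ d * ε = (1 / 2) ^ d := by
    rw [hε]
    have h4 : (4 : ℝ) ^ d = 2 ^ d * 2 ^ d := by
      rw [← mul_pow]
      norm_num
    rw [h4, one_div_pow]
    field_simp
  have e2 : (1 / 2 : ℝ) ^ (d - 1) = 2 * (1 / 2) ^ d := by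
    obtain ⟨e, rfl⟩ : ∃ e, d = e + 1 := ⟨d - 1, by omega⟩
    rw [Nat.add_sub_cancel, pow_succ]
    ring
  have hsd : (1 / 2 : ℝ) ^ d * P ≤ ‖s d‖ := by
    have h1 := norm_sub_norm_le (u ^ (d - 1) * (P : ℂ)) (u ^ (d - 1) * (P : ℂ) - s d)
    rw [sub_sub_cancel, norm_sub_rev (u ^ (d - 1) * (P : ℂ)) (s d)] at h1
    rw [e1] at hmain
    rw [e2] at hu3
    nlinarith
  have hlow2 : A * (d * (2 * M) ^ (d - 2)) ≤ (1 / 2 : ℝ) ^ (d + 1) * M ^ (d - 1) := by
    obtain ⟨e, rfl⟩ : ∃ e, d = e + 2 := ⟨d - 2, by omega⟩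
    have h1 : A * ((e + 2 : ℕ) : ℝ) * 2 ^ (2 * (e + 2)) ≤ M := by linarith
    have h2 : e + 2 - 2 = e := by omega
    have h3 : e + 2 - 1 = e + 1 := by omega
    rw [h2, h3]
    have h4 : (0 : ℝ) < 2 ^ (e + 2 + 1) := by positivity
    have h5 : (1 / 2 : ℝ) ^ (e + 2 + 1) * 2 ^ (e + 2 + 1) = 1 := by
      rw [← mul_pow]
      norm_num
    have h6 : A * (((e + 2 : ℕ) : ℝ) * (2 * M) ^ e) * 2 ^ (e + 2 + 1) ≤ M ^ (e + 1) := by
      calc A * (((e + 2 : ℕ) : ℝ) * (2 * M) ^ e) * 2 ^ (e + 2 + 1)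
          = (A * ((e + 2 : ℕ) : ℝ) * 2 ^ (e + (e + 2 + 1))) * M ^ e := by
            rw [mul_pow, pow_add 2 e (e + 2 + 1)]
            ring
        _ ≤ (A * ((e + 2 : ℕ) : ℝ) * 2 ^ (2 * (e + 2))) * M ^ e := by
            refine mul_le_mul_of_nonneg_right (mul_le_mul_of_nonneg_left ?_ (by positivity)) (by positivity)
            exact pow_le_pow_right₀ (by norm_num) (by omega)
        _ ≤ M * M ^ e := mul_le_mul_of_nonneg_right h1 (by positivity)
        _ = M ^ (e + 1) := by rw [pow_succ]; ring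
    calc A * (((e + 2 : ℕ) : ℝ) * (2 * M) ^ e)
        = (A * (((e + 2 : ℕ) : ℝ) * (2 * M) ^ e) * 2 ^ (e + 2 + 1)) * (1 / 2) ^ (e + 2 + 1) := by
          rw [mul_assoc, mul_comm ((2 : ℝ) ^ (e + 2 + 1)), h5, mul_one]
      _ ≤ M ^ (e + 1) * (1 / 2) ^ (e + 2 + 1) := mul_le_mul_of_nonneg_right h6 (by positivity)
      _ = _ := mul_comm _ _
  have hS : (1 / 2 : ℝ) ^ (d + 1) * M ^ (d - 1) ≤ ‖∑ k ∈ Finset.range d, G.coeff k * s k + s d‖ := by
    have h1 := norm_sub_norm_le (s d) (-∑ k ∈ Finset.range d, G.coeff k * s k)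
    rw [norm_neg, sub_neg_eq_add, add_comm (s d)] at h1
    have h2 : (1 / 2 : ℝ) ^ d * M ^ (d - 1) ≤ (1 / 2 : ℝ) ^ d * P :=
      mul_le_mul_of_nonneg_left hPM (by positivity)
    have h3 : (1 / 2 : ℝ) ^ d * M ^ (d - 1) = 2 * ((1 / 2 : ℝ) ^ (d + 1) * M ^ (d - 1)) := by
      rw [pow_succ]
      ring
    linarith
  have h2d : (2 : ℝ) ^ (d + 1) * (1 / 2) ^ (d + 1) = 1 := by
    rw [← mul_pow]
    norm_num
  rw [hdiff, norm_mul]
  calc ‖w - w'‖ * M ^ (d - 1) = 2 ^ (d + 1) * (((1 / 2 : ℝ) ^ (d + 1) * M ^ (d - 1)) * ‖w - w'‖) := by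
        rw [← mul_assoc, ← mul_assoc, h2d]
        ring
    _ ≤ _ := by
        refine mul_le_mul_of_nonneg_left ?_ (by positivity)
        exact mul_le_mul_of_nonneg_right hS (norm_nonneg _)

end Pool.Agent.J4H57.HN
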