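import Pool.Agent.J4H57.HN.Pair

/-!
Project HN of helper48 (MP_0e6b5f_nt): SIZE.
-/

set_option autoImplicit false

open Polynomial

namespace Pool.Agent.J4H57.HN

open Pool.Agent.J4H48.HN

theorem eval_near {G : ℂ[X]} {d : ℕ} (hd2 : 2 ≤ d) (hm : G.Monic) (hd : G.natDegree = d) :
    ∃ B : ℝ, 0 ≤ B ∧ ∀ (w : ℂ) (m : ℝ), 1 ≤ m → ‖w‖ ≤ m → ‖G.eval w - w ^ d‖ ≤ B * m ^ (d - 1) := by
  refine ⟨∑ k ∈ Finset.range d, ‖G.coeff k‖, Finset.sum_nonneg fun _ _ => norm_nonneg _, ?_⟩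
  intro w m hm1 hwm
  rw [eval_split hm hd, add_sub_cancel_right]
  refine (norm_sum_le _ _).trans ?_
  rw [Finset.sum_mul]
  refine Finset.sum_le_sum fun k hk => ?_
  rw [Finset.mem_range] at hk
  rw [norm_mul, norm_pow]
  refine mul_le_mul_of_nonneg_left ?_ (norm_nonneg _)
  calc ‖w‖ ^ k ≤ m ^ k := pow_le_pow_left₀ (norm_nonneg _) hwm _
    _ ≤ m ^ (d - 1) := pow_le_pow_right₀ hm1 (by omega)

theorem half_pow {x : ℝ} (hx : 0 ≤ x) {d : ℕ} (hd2 : 2 ≤ d) : (x / 2) ^ d ≤ x ^ d / 4 := by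
  rw [div_pow]
  refine div_le_div_of_nonneg_left (by positivity) (by norm_num) ?_
  calc (4 : ℝ) = 2 ^ 2 := by norm_num
    _ ≤ 2 ^ d := pow_le_pow_right₀ (by norm_num) hd2

theorem t_SIZE : S_SIZE := by
  intro G d hd2 hm hd A hA
  obtain ⟨B, hB0, hB⟩ := eval_near hd2 hm hd
  have hd0 : (0 : ℝ) < d := by
    have : 0 < d := by omega
    exact_mod_cast this
  obtain ⟨T₀, hT₀⟩ : ∃ T₀ : ℝ, T₀ = 2 * (B + 2 * A) + 1 := ⟨_, rfl⟩
  have hT₀1 : 1 ≤ T₀ := by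
    rw [hT₀]
    have : 0 ≤ B + 2 * A := by positivity
    linarith
  refine ⟨T₀ ^ d, one_le_pow₀ hT₀1, ?_⟩
  intro γ hγ W hW
  obtain ⟨T, hT⟩ : ∃ T : ℝ, T = |γ| ^ (1 / (d : ℝ)) := ⟨_, rfl⟩
  rw [← hT]
  have hT0 : T₀ ≤ T := by
    rw [hT]
    have h1 : T₀ = (T₀ ^ d) ^ (1 / (d : ℝ)) := by
      rw [one_div, Real.pow_rpow_inv_natCast (by linarith) (by omega)]
    rw [h1]
    exact Real.rpow_le_rpow (by positivity) hγ (by positivity)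
  have hTd : T ^ d = |γ| := by
    rw [hT, one_div, Real.rpow_inv_natCast_pow (abs_nonneg _) (by omega)]
  have hT1 : 1 ≤ T := hT₀1.trans hT0
  have hnγ : ‖(γ : ℂ)‖ = T ^ d := by
    rw [Complex.norm_real, Real.norm_eq_abs, hTd]
  have hpow : ∀ x : ℝ, 1 ≤ x → x ≤ x ^ (d - 1) := fun x hx => le_self_pow₀ hx (by omega)
  have hsucc : ∀ x : ℝ, x ^ d = x * x ^ (d - 1) := by
    intro x
    obtain ⟨e, he⟩ : ∃ e, d = e + 1 := ⟨d - 1, by omega⟩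
    rw [he, Nat.add_sub_cancel, pow_succ]
    ring
  -- upper bound
  have hup : ∀ w ∈ W, ‖w‖ ≤ 2 * T := by
    intro w hw
    obtain ⟨w₀, hw₀, hmax⟩ := Finset.exists_max_image W (fun w => ‖w‖) ⟨w, hw⟩
    refine (hmax w hw).trans ?_
    by_contra hcon
    push Not at hcon
    obtain ⟨b, hb⟩ : ∃ b : ℝ, b = ‖w₀‖ := ⟨_, rfl⟩
    rw [← hb] at hcon
    have hb1 : 1 ≤ b := by linarith
    obtain ⟨u, hu, v, hv, h1⟩ := hW w₀ hw₀
    have h2 : max ‖u‖ ‖v‖ ≤ b := by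
      rw [hb]
      exact max_le (hmax u hu) (hmax v hv)
    have h3 := hB w₀ b hb1 hb.symm.le
    have h4 : T ^ d ≤ b ^ d / 4 := by
      refine le_trans ?_ (half_pow (by linarith) hd2)
      exact pow_le_pow_left₀ (by linarith) (by linarith) d
    have h5 : ‖w₀ ^ d‖ = b ^ d := by rw [norm_pow, hb]
    have h6 : ‖w₀ ^ d‖ ≤ ‖G.eval w₀ + (γ : ℂ)‖ + ‖G.eval w₀ - w₀ ^ d‖ + ‖(γ : ℂ)‖ := by
      have e : w₀ ^ d = (G.eval w₀ + (γ : ℂ)) - (G.eval w₀ - w₀ ^ d) - (γ : ℂ) := by ring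
      calc ‖w₀ ^ d‖ = ‖(G.eval w₀ + (γ : ℂ)) - (G.eval w₀ - w₀ ^ d) - (γ : ℂ)‖ := by rw [← e]
        _ ≤ ‖(G.eval w₀ + (γ : ℂ)) - (G.eval w₀ - w₀ ^ d)‖ + ‖(γ : ℂ)‖ := norm_sub_le _ _
        _ ≤ _ := by
          have := norm_sub_le (G.eval w₀ + (γ : ℂ)) (G.eval w₀ - w₀ ^ d)
          linarith
    rw [h5, hnγ] at h6
    have h7 : A * max ‖u‖ ‖v‖ ≤ A * b ^ (d - 1) :=
      mul_le_mul_of_nonneg_left (h2.trans (hpow b hb1)) hA
    have h8 : 3 / 4 * b ^ d ≤ (A + B) * b ^ (d - 1) := by linarith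
    rw [hsucc b, ← mul_assoc] at h8
    have h9 : 3 / 4 * b ≤ A + B := le_of_mul_le_mul_right h8 (by positivity)
    have h10 : 2 * (2 * (B + 2 * A) + 1) < b := by linarith
    linarith
  have hnear : ∀ w ∈ W, ‖G.eval w + (γ : ℂ)‖ ≤ 2 * A * T := by
    intro w hw
    obtain ⟨u, hu, v, hv, h1⟩ := hW w hw
    refine h1.trans ?_
    have h2 : max ‖u‖ ‖v‖ ≤ 2 * T := max_le (hup u hu) (hup v hv)
    calc A * max ‖u‖ ‖v‖ ≤ A * (2 * T) := mul_le_mul_of_nonneg_left h2 hA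
      _ = _ := by ring
  intro w hw
  refine ⟨?_, hup w hw, hnear w hw⟩
  by_contra hcon
  push Not at hcon
  have h3 := hB w T hT1 (by linarith)
  have h4 : ‖w ^ d‖ ≤ T ^ d / 4 := by
    rw [norm_pow]
    refine le_trans ?_ (half_pow (by linarith) hd2)
    exact pow_le_pow_left₀ (norm_nonneg _) (by linarith) d
  have h6 : ‖(γ : ℂ)‖ ≤ ‖G.eval w + (γ : ℂ)‖ + ‖G.eval w - w ^ d‖ + ‖w ^ d‖ := by
    have e : (γ : ℂ) = (G.eval w + (γ : ℂ)) - (G.eval w - w ^ d) - w ^ d := by ring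
    calc ‖(γ : ℂ)‖ = ‖(G.eval w + (γ : ℂ)) - (G.eval w - w ^ d) - w ^ d‖ := by rw [← e]
      _ ≤ ‖(G.eval w + (γ : ℂ)) - (G.eval w - w ^ d)‖ + ‖w ^ d‖ := norm_sub_le _ _
      _ ≤ _ := by
        have := norm_sub_le (G.eval w + (γ : ℂ)) (G.eval w - w ^ d)
        linarith
  rw [hnγ] at h6
  have h7 := hnear w hw
  have h8 : 2 * A * T ≤ 2 * A * T ^ (d - 1) := mul_le_mul_of_nonneg_left (hpow T hT1) (by positivity)
  have h9 : 3 / 4 * T ^ d ≤ (2 * A + B) * T ^ (d - 1) := by linarith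
  rw [hsucc T, ← mul_assoc] at h9
  have h10 : 3 / 4 * T ≤ 2 * A + B := le_of_mul_le_mul_right h9 (by positivity)
  linarith

end Pool.Agent.J4H57.HN
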